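import Pool.Agent.X328.TAU.Stm
import Pool.Agent.X40.TAU.DIG

set_option autoImplicit false

namespace Pool.Agent.X40.TAU

universe u

theorem t_DIG : Pool.Agent.X328.TAU.S_DIG.{u} :=
  fun F _ _ d hd hs a b h => DIG.dig F d hd hs a b h

end Pool.Agent.X40.TAU
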